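import Pool.Agent.N666.TM.Diag
import Pool.Agent.Results.MP_d83ecd_ag.AnyLevelScaledImages

/-!
# MP_d83ecd_ag: one set of density zero for Zilber-Pink of all scaled images in products of modular curves

`Y(1)^n` is identified with `ℂ^n` by the elliptic modular function. For a vector `c` of positive integers
let `X_c ⊆ Y(1)^n` be the image of the set of the `(P_1, …, P_n)` in a product of modular curves of any
levels such that `c_i s_i (P_i) = f_i (y)` for a point `y` of a projective algebraic set `B`
(`scaledImage`; the `s_i` are functions integral over `K[j]`, the `f_i = A_i / B_i` quotients of forms, no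
point of `B` is on `m + 1` of their divisors). The starting result `AnyLevelScaledImages` shows that `X_c`
has no atypical intersections if at sufficiently many large primes the exponents of the `c_i` are
independent.

Let `P_0, P_1, P_2, …` be an infinite sequence of generalised polynomials `P(t) = ∑ a_x t ^ x` (finitely
many real exponents, real coefficients, depending on `l`) with distinct leading exponents which are
positive and not integers and have positive coefficients; for example `P_l(t) = t ^ (2 l + √2)`.

**Theorem.** There is ONE set `E` of integers of natural density zero, also of relative density zero in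
the set of the primes, such that for ALL `n`, all countable fields `K ⊂ ℂ`, all data `B`, `f_i`, `s_i`
over `K` (of any dimension and level), all finite sets `Γ` of allowed constants and all exponents
`e_{l i}`, independent modulo squares, the set `X_{c(t)}` with

`c_i(t) = ∏_l |⌊P_l(t)⌋| ^ e_{l i}`

has no atypical intersection with special subvarieties for all but finitely many integers `t`
outside `E`. The set `E` depends on the `P_l` only (the finite number of further exceptions depends on
the data).

Proof. By exponential sums (`Pool.Agent.Y961.JR` of the starting library) the integer parts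
`⌊P_0(t)⌋, …, ⌊P_k(t)⌋` are jointly equidistributed modulo all `q ≤ N^δ` over the integers and over the
primes `t ≤ N`. Turan's sieve shows that for almost all `t` every `⌊P_l(t)⌋`, `l ≤ k`, has an exact prime
divisor above `k` which does not divide the others; a diagonal argument gives one set for all `k`.
-/

set_option autoImplicit false

namespace Pool.Agent.Results.MP_d83ecd_ag.OneNullSet

open MvPolynomial
open Pool.Agent.Results.MP_d83ecd_ag.AnyLevelScaledImages (OnB NoAtypical scaledImage Spread)

/-- `c` is the largest exponent of the generalised polynomial `∑ a_x t ^ x`; it is positive and not an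
integer and has a positive coefficient. -/
def Admissible (F : Finset ℝ) (a : ℝ → ℝ) (c : ℝ) : Prop :=
  c ∈ F ∧ (∀ x ∈ F, x ≤ c) ∧ 0 < c ∧ (∀ m : ℕ, c ≠ m) ∧ 0 < a c

/-- The absolute value of the integer part of the value at `t` of the generalised polynomial `P_l`. -/
noncomputable def value (F : ℕ → Finset ℝ) (a : ℕ → ℝ → ℝ) (l t : ℕ) : ℕ :=
  (⌊∑ x ∈ F l, a l x * (t : ℝ) ^ x⌋).natAbs

/-- `E` has density zero relative to the sets `S N`. -/
def NullIn (S : ℕ → Finset ℕ) (E : Set ℕ) : Prop :=
  ∀ ε : ℝ, 0 < ε → ∃ N₀ : ℕ, ∀ N : ℕ, N₀ ≤ N →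
    ({t : ℕ | t ∈ S N ∧ t ∈ E}.ncard : ℝ) ≤ ε * (S N).card

universe u

theorem result (F : ℕ → Finset ℝ) (a : ℕ → ℝ → ℝ) (c : ℕ → ℝ) (h : ∀ l, Admissible (F l) (a l) (c l))
    (hc : Function.Injective c) :
    ∃ E : Set ℕ, NullIn (fun N => Finset.Ioc N (2 * N)) E ∧
      NullIn (fun N => (Finset.Ioc N (2 * N)).filter Nat.Prime) E ∧
      ∀ (κ : Type u) (K : Subfield ℂ) [Countable K] (N n m : ℕ)
        (G : κ → MvPolynomial (Fin (N + 1)) K) (_ : ∀ k, ∃ e, (G k).IsHomogeneous e)
        (A B : Fin n → MvPolynomial (Fin (N + 1)) K) (d : Fin n → ℕ)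
        (_ : ∀ i, (A i).IsHomogeneous (d i)) (_ : ∀ i, (B i).IsHomogeneous (d i))
        (_ : ∀ I : Finset (Fin n), I.card = m + 1 → ∀ y, OnB G y →
          ∃ i ∈ I, aeval y (A i) * aeval y (B i) ≠ 0)
        (R : Fin n → Polynomial (Polynomial K)) (_ : ∀ i, (R i).Monic)
        (T : ℕ) (_ : ∀ i u w, ((R i).coeff u).coeff w ≠ 0 → u ≤ T ∧ w ≤ T)
        (Γ : Finset ℂ) (_ : ∀ γ ∈ Γ, γ ∈ K) (L : ℕ) (_ : L = n * n * (T + 1) ^ 4 + 1)
        (e : Fin L → Fin n → ℕ) (_ : ∀ l i, 0 < e l i)
        (_ : ∀ l l', l ≠ l' → ∀ i j, i ≠ j → ¬ IsSquare (e l i * e l j * (e l' i * e l' j))),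
        {t : ℕ | t ∉ E ∧ ¬ NoAtypical K Γ m
          (scaledImage G A B R (fun i => ∏ l : Fin L, value F a l t ^ e l i))}.Finite := by
  obtain ⟨E, h1, h2, h3⟩ := Pool.Agent.N666.TM.one_null_set h hc
  refine ⟨E, h1, h2, ?_⟩
  intro κ K _ N n m G hG A B d hA hB hpos R hR T hT Γ hΓ L hL e he0 he
  obtain ⟨D, hD, -, -⟩ := Pool.Agent.Results.MP_d83ecd_ag.AnyLevelScaledImages.result K N n m G hG A B
    d hA hB hpos R hR T hT Γ hΓ L hL
  refine (h3 (D + L)).subset ?_
  rintro t ⟨htE, ht⟩
  refine ⟨htE, fun hgood => ht (hD _ ?_)⟩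
  choose p hp1 hp2 hp3 hp4 hp5 using hgood
  have hlt : ∀ l : Fin L, (l : ℕ) < D + L + 1 := fun l => by have := l.2; omega
  have hfac : ∀ (l : Fin L) (i : Fin n),
      (∏ l' : Fin L, value F a l' t ^ e l' i).factorization (p l (hlt l)) = e l i := by
    intro l i
    refine Pool.Agent.N666.TM.fact_prod (fun l' => e l' i) l (hp1 l (hlt l)) ?_ ?_ ?_
    · exact Int.natCast_dvd.mp (hp3 l (hlt l))
    · intro hd
      apply hp4 l (hlt l)
      have := Int.natCast_dvd.mpr hd
      push_cast at this
      exact this
    · intro i' hi' hd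
      exact hp5 l (hlt l) i' (hlt i') (fun heq => hi' (Fin.ext heq)) (Int.natCast_dvd.mpr hd)
  refine ⟨fun l => p l (hlt l), fun l => ⟨hp1 l (hlt l), ?_, fun i => ?_⟩, fun l l' hll i j hij => ?_⟩
  · have := hp2 l (hlt l)
    change D < p l (hlt l)
    omega
  · rw [hfac]
    exact he0 l i
  · rw [hfac, hfac, hfac, hfac]
    exact he l l' hll i j hij

end Pool.Agent.Results.MP_d83ecd_ag.OneNullSet
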