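import Pool.Agent.N135.ZO.Glob

/-!
# MP_d83ecd_ag: Zilber-Pink for the subvarieties of `Y(1)^n` of any dimension which are, at one place
of good ordinary reduction, close to a CM point in general position

`Y(1)^n` is identified with `ℂ^n` by the elliptic modular function `jj = j = E₄³ / Δ`.

Let `K` be a number field, `σ : K → ℂ`, `v` a prime of `K` above an odd prime number `p`, and
`s = (j(τ_1), …, j(τ_n))` a CM point over `K` whose coordinates are pairwise not isogenous, ordinary
at `p`, and not congruent to `0` or `1728` modulo `v` (`OrdinaryCMPoint`). The coordinates of `s` may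
be congruent to each other's conjugates in any way, and `v` can be ramified.

Let `V ⊆ (P¹)^n` be a subvariety of any dimension and any degree given by multihomogeneous forms
over `𝓞 K`, with reduction modulo `v` in general position (`GeneralPosition v F m`): on the
reduction, the locus where `a` of the coordinates are in `{0, ∞}` has dimension at most `m - a`. For
example, for `m = 1`, the lines `{((t - b_i) / (t - c_i))_i}` have this property, if the `2 n`
elements `b_i`, `c_i` of `𝓞 K` are pairwise incongruent modulo `v`.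

Let `λ_i ∈ K` be different from zero, `v(λ_i) > 0`, `(p - 1) p^k v(λ_i) ≠ v(p)` for all `k ≥ 0` (this is
the case for all `λ_i` with `v(λ_i) > 0` if the ramification index of `v` is smaller than `p - 1`), and
let `X = s + λ V` be the set of all `(s_1 + λ_1 y_1, …, s_n + λ_n y_n)`, `y ∈ V ∩ ℂ^n`.

**Theorem.** `X` has no atypical intersection with special subvarieties: for each special subvariety
`Z` of dimension `r` the points of `X ∩ Z` have transcendence degree at most `m + r - n`. (So each
component of `X ∩ Z` has dimension at most `m + r - n`, and `X ∩ Z` is empty for `r < n - m`.)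

The proof is in `Pool.Agent.N135.ZO`: the polynomials with the roots `p^12 Δ(pτ)/Δ(τ)` and
`Δ((τ + b)/p)/Δ(τ)` and the corresponding values of `j` give the canonical isogeny in ordinary
residue classes, as a function which is contracting and injective on small disks; CM points are
preperiodic, hence the distance of two different CM points in an ordinary residue class has the
`(p - 1) p^k`-th power `|p|` for some `k`; points in different coordinates near to `s` are not
isogenous; then `V ∩ ℂ^n` is studied with valuations of `ℂ` extending Gauss valuations.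
-/

set_option autoImplicit false

namespace Pool.Agent.Results.MP_d83ecd_ag.OrdinaryPlace

open UpperHalfPlane H294ZP NumberField IsDedekindDomain

/-- A special subvariety of dimension `r` of `Y(1)^n`: a map `cls` from the coordinates onto `r`
classes (`none` for the constant coordinates), an integral matrix of positive determinant for each
coordinate, and a CM point for each coordinate. -/
structure SpecialVariety (n r : ℕ) where
  cls : Fin n → Option (Fin r)
  surj : ∀ l : Fin r, ∃ i, cls i = some l
  mat : Fin n → Matrix (Fin 2) (Fin 2) ℤ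
  det_pos : ∀ i, 0 < (mat i).det
  cm : Fin n → ℍ
  isCM : ∀ i, IsCM (cm i)

/-- The points of a special subvariety: the constant coordinates are the singular moduli
`j (cm i)`, the other coordinates are `j (g_i z_l)`, where `l` is the class of `i`, `g_i = mat i` and
`z_1, …, z_r` are free parameters in the upper half plane. -/
def SpecialVariety.locus {n r : ℕ} (Z : SpecialVariety n r) : Set (Fin n → ℂ) :=
  {x | ∃ z : Fin r → ℍ, ∀ i, (Z.cls i = none → x i = jj (Z.cm i)) ∧
    ∀ l, Z.cls i = some l → ∃ w : ℍ,
      (w : ℂ) * (Z.mat i 1 0 * z l + Z.mat i 1 1) = Z.mat i 0 0 * z l + Z.mat i 0 1 ∧ x i = jj w}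

/-- The CM point `τ` is ordinary at `p`: `τ` is fixed by an integral matrix `M` whose determinant is
a power of `p` and whose trace is prime to `p` (`p` splits in the field `ℚ(τ)` and does not divide
the conductor). -/
def OrdinaryAt (p : ℕ) (τ : ℍ) : Prop :=
  ∃ (e : ℕ) (M : Matrix (Fin 2) (Fin 2) ℤ), 0 < e ∧ M.det = (p : ℤ) ^ e ∧ ¬ (p : ℤ) ∣ M.trace ∧
    (τ : ℂ) * (M 1 0 * τ + M 1 1) = M 0 0 * τ + M 0 1

/-- `x` and `x'` are the `j`-invariants of isogenous elliptic curves. -/
def Isogenous (x x' : ℂ) : Prop :=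
  ∃ (g : Matrix (Fin 2) (Fin 2) ℤ) (τ τ' : ℍ), 0 < g.det ∧
    (τ' : ℂ) * (g 1 0 * τ + g 1 1) = g 0 0 * τ + g 0 1 ∧ jj τ = x ∧ jj τ' = x'

/-- CM points `s = (j(τ_1), …, j(τ_n))` of `Y(1)^n` over `K` with pairwise not isogenous coordinates
which are ordinary at `p` and not congruent to `0` or `1728` modulo `v`. -/
structure OrdinaryCMPoint {K : Type} [Field K] [NumberField K] (σ : K →+* ℂ)
    (v : HeightOneSpectrum (𝓞 K)) (p n : ℕ) where
  coord : Fin n → K
  τ : Fin n → ℍ
  j_eq : ∀ i, jj (τ i) = σ (coord i)
  cm : ∀ i, IsCM (τ i)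
  ordinary : ∀ i, OrdinaryAt p (τ i)
  not_zero : ∀ i, v.valuation K (coord i) = 1
  not_1728 : ∀ i, v.valuation K (coord i - 1728) = 1
  not_isogenous : ∀ i k, i ≠ k → ¬ Isogenous (jj (τ i)) (jj (τ k))

/-- A form with coefficients in `R` which is homogeneous of degree `deg i` in `(ξ i, ζ i)` for each
`i`: the coefficients of the monomials `∏ ξ_i ^ (e_i) ζ_i ^ (deg i - e_i)`. -/
structure MultiForm (R : Type) (n : ℕ) where
  deg : Fin n → ℕ
  coeff : ((i : Fin n) → Fin (deg i + 1)) → R

/-- The value of the form at a point over `k`, for a ring homomorphism `R → k`. -/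
def MultiForm.eval {R k : Type} [CommRing R] [CommRing k] {n : ℕ} (F : MultiForm R n) (π : R →+* k)
    (ξ ζ : Fin n → k) : k :=
  ∑ e, π (F.coeff e) * ∏ i, ξ i ^ (e i : ℕ) * ζ i ^ (F.deg i - e i)

/-- The subvariety of `(P¹)^n` given by the forms has reduction modulo `v` in general position: for
each point `(ξ_i : ζ_i)_i` of the reduction over an extension field `k` of `𝓞 K / v`, the number of
coordinates in `{0, ∞}` plus the number of any family of algebraically independent coordinates is
at most `m`. -/
def GeneralPosition {K : Type} [Field K] [NumberField K] (v : HeightOneSpectrum (𝓞 K)) {n : ℕ}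
    {T : Type} (F : T → MultiForm (𝓞 K) n) (m : ℕ) : Prop :=
  ∀ (k : Type) [Field k] [Algebra (𝓞 K ⧸ v.asIdeal) k] (ξ ζ : Fin n → k),
    (∀ i, ξ i ≠ 0 ∨ ζ i ≠ 0) →
    (∀ t, (F t).eval
      ((algebraMap (𝓞 K ⧸ v.asIdeal) k).comp (Ideal.Quotient.mk v.asIdeal)) ξ ζ = 0) →
    ∀ W : Finset (Fin n), AlgebraicIndependent (𝓞 K ⧸ v.asIdeal) (fun i : W => ξ i / ζ i) →
      {i | ξ i = 0 ∨ ζ i = 0}.ncard + W.card ≤ m

/-- `X = s + λ V`: the set of all `(s_i + λ_i y_i)_i`, where `y` is a point of `ℂ^n` at which all
the forms vanish. -/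
def image {K : Type} [Field K] [NumberField K] {σ : K →+* ℂ} {v : HeightOneSpectrum (𝓞 K)}
    {p n : ℕ} (s : OrdinaryCMPoint σ v p n) (lam : Fin n → K) {T : Type}
    (F : T → MultiForm (𝓞 K) n) : Set (Fin n → ℂ) :=
  {x | ∃ y : Fin n → ℂ, (∀ t, (F t).eval (σ.comp (algebraMap (𝓞 K) K)) y (fun _ => 1) = 0) ∧
    ∀ i, x i = jj (s.τ i) + σ (lam i) * y i}

/-- For each special subvariety `Z` of dimension `r`, the points of `X ∩ Z` have transcendence
degree at most `m + r - n`: families of algebraically independent coordinates have at most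
`m + r - n` elements. -/
def NoAtypical {n : ℕ} (X : Set (Fin n → ℂ)) (m : ℕ) : Prop :=
  ∀ (r : ℕ) (Z : SpecialVariety n r), ∀ x ∈ X ∩ Z.locus, ∀ W : Finset (Fin n),
    AlgebraicIndependent ℚ (fun i : W => x i) → n + W.card ≤ m + r

theorem result {K : Type} [Field K] [NumberField K] (σ : K →+* ℂ) (v : HeightOneSpectrum (𝓞 K))
    (p : ℕ) (hp : p.Prime) (hp2 : p ≠ 2) (hpv : (p : 𝓞 K) ∈ v.asIdeal) {n : ℕ}
    (s : OrdinaryCMPoint σ v p n) (lam : Fin n → K)
    (hlam : ∀ i, lam i ≠ 0 ∧ v.valuation K (lam i) < 1 ∧
      ∀ k : ℕ, v.valuation K (lam i) ^ ((p - 1) * p ^ k) ≠ v.valuation K p)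
    {T : Type} (F : T → MultiForm (𝓞 K) n) (m : ℕ) (hF : GeneralPosition v F m) :
    NoAtypical (image s lam F) m := by
  rintro r Z x ⟨⟨y, hy, hxy⟩, hxZ⟩ W hW
  have := Pool.Agent.N135.ZO.glob_main σ v hp hp2 hpv s.coord s.τ s.j_eq s.cm s.ordinary s.not_zero
    s.not_1728 s.not_isogenous lam (fun i => (hlam i).1) (fun i => (hlam i).2.1)
    (fun i => (hlam i).2.2) (fun t => ⟨(F t).deg, (F t).coeff⟩) hF
    ⟨Z.cls, Z.surj, Z.mat, Z.det_pos, Z.cm, Z.isCM⟩ hxZ y hy hxy W hW
  omega

end Pool.Agent.Results.MP_d83ecd_ag.OrdinaryPlace
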