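import Pool.Agent.N101.ZP.GeoE

/-!
# Zilber–Pink for all `Y(1)^n` and the powers of the plane `x + y = z`

All definitions (`Subvariety`, `Special`, `vdim`, `defect`, `Optimal`, `Atypical`, `ZilberPink`,
`planePow`) are in `Pool/Agent/N101/ZP/YDef.lean`.
-/

namespace Pool.Agent.Results.MP_d83ecd_ag.PowersOfAPlane

open Pool.Agent.N101.Y1

/-- The statement of the problem for all subvarieties of all `Y(1)^n` holds if and only if, for
every `M`, the `M`-th power of the plane `x + y = z` in `Y(1)^3` has only finitely many optimal
subvarieties. -/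
theorem result :
    (∀ (ι : Type) [Fintype ι] (V : Set (ι → ℂ)), Subvariety V → ZilberPink V) ↔
      ∀ M : ℕ, {A | Optimal A (planePow M)}.Finite :=
  zilberPink_iff

end Pool.Agent.Results.MP_d83ecd_ag.PowersOfAPlane
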