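import Pool.Agent.N666.TM.Zer
import Pool.Agent.Y226.ZR.Rand

/-!
# Zilber-Pink in `Y(1)^n` for thin sequences in arbitrary families of rational curves

`Y(1)^n` is identified with `ℂ^n` by the elliptic modular function `jj = j = E₄³ / Δ`.  A special
subvariety of `Y(1)^n` of dimension `r` is given by a `SpecialVariety`: its points are the points
`x` with `x_i = const_i` for the constant coordinates, and `x_i = j (g_i z_l)` for the coordinates of
class `l`, `z_1, …, z_r` free in the upper half plane and `g_i` a fixed integral matrix of positive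
determinant.  The constants are singular moduli, or arbitrary numbers which are integral over the ring
generated by a finite set `Γ` of algebraic numbers.

*Families.*  Let `P_i (u; s, t)`, `Q_i (u; s, t)`, `i = 1, …, n`, be arbitrary forms of degree `d ≥ 1` in
`(s, t)` whose coefficients are integral polynomials in finitely many parameters `u_j`, `j ∈ J`
(`J` may be empty), such that the `n` resultants of `P_i`, `Q_i` and the resultants of `P_i Q_i`,
`P_j Q_j`, `i ≠ j`, are not identically zero.  For integers `m` and `u` one has the rational curve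
`V (m, u)` with the parametrization `x_i = P_i (u; s, t) / (m Q_i (u; s, t))`, `(s : t) ∈ ℙ¹`.

*Thin sequences.*  `m` and the `u_j` are the integer parts of the values at `N < t ≤ 2N` of generalised
polynomials, that is, of finite sums of real powers with real coefficients, whose leading exponents are
positive, not integers and different from each other, with positive leading coefficients; `t` runs through
the integers, or only through the primes.

Theorem: for every `ε > 0` there are `G` and `N₀` such that for `N ≥ N₀`, for all but `ε N` of the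
integers and for all but the proportion `ε` of the primes of `(N, 2N]`,

* `V (m, u)` has at most `G` points on special subvarieties of codimension at least two;
* all these points are on the special subvarieties defined by an isogeny of degree at most `G` between two
  of the coordinates: one finite set of proper special subvarieties of `Y(1)^n` covers the atypical
  intersections of all these curves;
* `V (m, u)` is not contained in a proper special subvariety.

Examples: `J` empty: one fixed curve `x_i = P_i (s) / Q_i (s)` and its contractions by the integers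
`⌊t ^ c⌋`, `c` as large or as small as we please; or all coefficients of all forms independent.

*Proof.*  The local theorem of the starting library (`Y226.ZR.rand_prime`: if a prime `p` divides `m` and no
resultant, everything is bounded in terms of `p`, `n`, `d`) and a sieve: the vectors `(m, u)` are well
distributed modulo all `q ≤ N^κ` (exponential sums over integers and primes), and the sets of the residues
`(0, u)` modulo `p` at which the resultants do not vanish have density about `1 / p`, so that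
almost all members of the sequence meet one of them for a prime below a bound which depends only on `ε`.
-/

set_option autoImplicit false

namespace Pool.Agent.Results.MP_d83ecd_ag.ThinRationalFamilies

open H294ZP UpperHalfPlane

/-- A special subvariety of dimension `r` of `Y(1)^n`. The constant coordinates are those with
`cls i = none`. The allowed constants are the singular moduli and the numbers which are integral
over the ring generated by `Γ`. -/
structure SpecialVariety (Γ : Set ℂ) (n r : ℕ) where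
  cls : Fin n → Option (Fin r)
  surj : ∀ l : Fin r, ∃ i, cls i = some l
  mat : Fin n → Matrix (Fin 2) (Fin 2) ℤ
  det_pos : ∀ i, 0 < (mat i).det
  const : Fin n → ℂ
  allowed : ∀ i, (∃ τ : ℍ, IsCM τ ∧ const i = jj τ) ∨ IsIntegral (Algebra.adjoin ℤ Γ) (const i)

/-- The points of a special subvariety of `Y(1)^n`. -/
def SpecialVariety.locus {Γ : Set ℂ} {n r : ℕ} (Z : SpecialVariety Γ n r) : Set (Fin n → ℂ) :=
  {x | ∃ z : Fin r → ℍ, ∀ i, (Z.cls i = none → x i = Z.const i) ∧
    ∀ l, Z.cls i = some l → ∃ w : ℍ,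
      (w : ℂ) * (Z.mat i 1 0 * z l + Z.mat i 1 1) = Z.mat i 0 0 * z l + Z.mat i 0 1 ∧
      x i = jj w}

/-- Coefficient systems: `c (i, 0, k)` is the coefficient of `s^k t^(d - k)` in the form `P_i`,
and `c (i, 1, k)` the coefficient in the form `Q_i`. -/
abbrev Coeffs (n d : ℕ) (R : Type) : Type := Fin n × Fin 2 × Fin (d + 1) → R

/-- The value at `(s, t)` of the form `P_i` (`l = 0`) or `Q_i` (`l = 1`) of degree `d`. -/
noncomputable def form {n d : ℕ} (c : Coeffs n d ℤ) (i : Fin n) (l : Fin 2) (s t : ℂ) : ℂ :=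
  ∑ k : Fin (d + 1), (c (i, l, k) : ℂ) * s ^ (k : ℕ) * t ^ (d - (k : ℕ))

/-- The rational curve with the parametrization `x_i = P_i (s, t) / (m Q_i (s, t))`. -/
def curve {n d : ℕ} (m : ℤ) (c : Coeffs n d ℤ) : Set (Fin n → ℂ) :=
  {x | ∃ s t : ℂ, (s ≠ 0 ∨ t ≠ 0) ∧ ∀ i, (m : ℂ) * form c i 1 s t * x i = form c i 0 s t}

/-- The points of `S` on special subvarieties of codimension at least two. -/
def atypical (Γ : Set ℂ) {n : ℕ} (S : Set (Fin n → ℂ)) : Set (Fin n → ℂ) :=
  {x | x ∈ S ∧ ∃ (r : ℕ) (Z : SpecialVariety Γ n r), r + 2 ≤ n ∧ x ∈ Z.locus}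

/-- `x` and `x'` are the `j`-invariants of elliptic curves which are connected by an isogeny of
degree `N`. -/
def Isogenous (N : ℕ) (x x' : ℂ) : Prop :=
  ∃ (τ τ' : ℍ) (g : Matrix (Fin 2) (Fin 2) ℤ), g.det = N ∧
    (τ' : ℂ) * (g 1 0 * τ + g 1 1) = g 0 0 * τ + g 0 1 ∧ x = jj τ ∧ x' = jj τ'

/-- The conclusion of the Zilber-Pink conjecture for the curve `S` with the explicit bound `G`: at most
`G` atypical points, all of them on the subvarieties given by isogenies of degree at most `G` between two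
coordinates, and `S` is in no proper special subvariety. -/
def ZilberPink (Γ : Set ℂ) (G : ℕ) {n : ℕ} (S : Set (Fin n → ℂ)) : Prop :=
  (atypical Γ S).Finite ∧ (atypical Γ S).ncard ≤ G ∧
  (∀ x ∈ atypical Γ S, ∃ j l : Fin n, j ≠ l ∧ ∃ N : ℕ, 0 < N ∧ N ≤ G ∧ Isogenous N (x j) (x l)) ∧
  ∀ (r : ℕ) (Z : SpecialVariety Γ n r), r < n → ¬ S ⊆ Z.locus

/-- The form `P_i` or `Q_i` as a polynomial in `s` (for `t = 1`). -/
noncomputable def poly {R : Type} [CommRing R] {n d : ℕ} (c : Coeffs n d R) (i : Fin n) (l : Fin 2) :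
    Polynomial R :=
  ∑ k : Fin (d + 1), Polynomial.C (c (i, l, k)) * Polynomial.X ^ (k : ℕ)

/-- The resultants (of forms in two variables) of `P_i`, `Q_i` and of `P_i Q_i`, `P_j Q_j` are not zero. -/
def NoCommonZeros {R : Type} [CommRing R] {n d : ℕ} (c : Coeffs n d R) : Prop :=
  (∀ i, (poly c i 0).resultant (poly c i 1) d d ≠ 0) ∧
  ∀ i j, i ≠ j → (poly c i 0 * poly c i 1).resultant (poly c j 0 * poly c j 1) (d + d) (d + d) ≠ 0

/-- `c` is the largest exponent of the generalised polynomial `∑ a_x t ^ x`; it is positive and not an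
integer and has a positive coefficient. -/
def Admissible (F : Finset ℝ) (a : ℝ → ℝ) (c : ℝ) : Prop :=
  c ∈ F ∧ (∀ x ∈ F, x ≤ c) ∧ 0 < c ∧ (∀ m : ℕ, c ≠ m) ∧ 0 < a c

/-- The integer parts of the values at `t` of the generalised polynomials `∑ a_x t ^ x`, `x ∈ F k`. -/
noncomputable def floors {κ : Type} (F : κ → Finset ℝ) (a : κ → ℝ → ℝ) (t : ℕ) (k : κ) : ℤ :=
  ⌊∑ x ∈ F k, a k x * (t : ℝ) ^ x⌋

/-- The member of the family at the parameter vector `(m, u)`; `m` is the coordinate `none`. -/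
noncomputable def member {J : Type} {n d : ℕ} (A : Coeffs n d (MvPolynomial J ℤ))
    (v : Option J → ℤ) : Set (Fin n → ℂ) :=
  curve (v none) (fun a => MvPolynomial.eval (fun j => v (some j)) (A a))

/-- Special subvarieties in the form used in the proof. -/
def SpecialVariety.toSV {Γ : Set ℂ} {n r : ℕ} (Z : SpecialVariety Γ n r) :
    Pool.Agent.Y226.ZM.SV Γ n r where
  cls := Z.cls
  mat := Z.mat
  det_pos := Z.det_pos
  const := Z.const
  int := fun i => by
    rcases Z.allowed i with ⟨τ, hτ, h⟩ | h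
    · rw [h]
      exact (singular_modulus_integral τ hτ).tower_top
    · exact h

open Pool.Agent.Y226.ZR in
/-- The local theorem: a prime which divides `m` and none of the resultants. -/
theorem good_of_prime (n d : ℕ) (hd : 0 < d) (p : ℕ) (hp : p.Prime) (hpD : 16 * (d + 1) ^ 4 < p) :
    ∃ G : ℕ, ∀ (m : ℤ) (c : Coeffs n d ℤ), m ≠ 0 → (p : ℤ) ∣ m →
      ¬ (p : ℤ) ∣ MvPolynomial.eval c (Rr n d) →
      ∀ Γ : Finset ℂ, (∀ γ ∈ Γ, ∃ m : ℕ, ¬ p ∣ m ∧ IsIntegral ℤ ((m : ℂ) * γ)) →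
      ZilberPink (Γ : Set ℂ) G (curve m c) := by
  obtain ⟨G, hG⟩ := rand_prime n d hd p hp hpD
  refine ⟨G, fun m c hm hpm hR Γ hΓ => ?_⟩
  obtain ⟨h1, h2, h3, h4⟩ := hG m c hm hpm hR Γ hΓ
  have hsub : atypical Γ (curve m c) ⊆
      {x | x ∈ crvR m c ∧
        ∃ (r : ℕ) (Z : Pool.Agent.Y226.ZM.SV (Γ : Set ℂ) n r), r + 2 ≤ n ∧ x ∈ Z.locus} := by
    rintro x ⟨hx, r, Z, hr, hZ⟩
    exact ⟨hx, r, Z.toSV, hr, hZ⟩
  refine ⟨h2.subset hsub, (Set.ncard_le_ncard hsub h2).trans h3, ?_, ?_⟩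
  · rintro x ⟨hx, r, Z, hr, hZ⟩
    obtain ⟨j, l, hjl, N, hN0, hN, τ, τ', a, b, c, d, hdet, hτ, hxj, hxl⟩ :=
      h1 x hx r Z.toSV hr hZ
    refine ⟨j, l, hjl, N, hN0, hN, τ, τ', !![a, b; c, d], ?_, ?_, hxj, hxl⟩
    · rw [Matrix.det_fin_two_of]
      exact hdet
    · simpa using hτ
  · intro r Z hr hsub'
    exact h4 r Z.toSV hr hsub'

theorem zilberPink_mono {Γ : Set ℂ} {G G' : ℕ} (h : G ≤ G') {n : ℕ} {S : Set (Fin n → ℂ)}
    (hS : ZilberPink Γ G S) : ZilberPink Γ G' S := by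
  refine ⟨hS.1, hS.2.1.trans h, fun x hx => ?_, hS.2.2.2⟩
  obtain ⟨j, l, hjl, N, hN0, hN, hI⟩ := hS.2.2.1 x hx
  exact ⟨j, l, hjl, N, hN0, hN.trans h, hI⟩

section
variable {J : Type} [Fintype J] [DecidableEq J]

open Pool.Agent.Y226.ZR Pool.Agent.N666.TM in
/-- The theorem for a well distributed sequence of parameter vectors. -/
theorem along (n d : ℕ) (hd : 0 < d) (A : Coeffs n d (MvPolynomial J ℤ)) (hA : NoCommonZeros A)
    (Γ : Finset ℂ) (hΓ : ∀ γ ∈ Γ, IsAlgebraic ℚ γ) {S : ℕ → Finset ℕ} {x : ℕ → Option J → ℤ}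
    {κ : ℝ} (hκ : 0 < κ)
    (hw : ∃ N₀ : ℕ, ∀ N : ℕ, N₀ ≤ N → ∀ H : ℕ, (H : ℝ) ≤ (N : ℝ) ^ κ → Well (S N) x H)
    (ε : ℝ) (hε : 0 < ε) :
    ∃ G N₀ : ℕ, ∀ N : ℕ, N₀ ≤ N →
      ({t : ℕ | t ∈ S N ∧ ¬ ZilberPink (Γ : Set ℂ) G (member A (x t))}.ncard : ℝ) ≤
        ε * (S N).card := by
  classical
  -- the polynomial
  set R : MvPolynomial J ℤ := MvPolynomial.aeval A (Rr n d) with hR
  have hR0 : R ≠ 0 := by
    rw [hR]
    unfold Rr
    rw [map_mul, map_prod, map_prod]
    refine mul_ne_zero (Finset.prod_ne_zero_iff.2 fun i _ => ?_)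
      (Finset.prod_ne_zero_iff.2 fun q hq => ?_)
    · have h1 := rs1_map (MvPolynomial.aeval A : MvPolynomial (Idx n d) ℤ →ₐ[ℤ] MvPolynomial J ℤ).toRingHom
        (MvPolynomial.X : Idx n d → MvPolynomial (Idx n d) ℤ) i
      simp only [AlgHom.toRingHom_eq_coe, RingHom.coe_coe, MvPolynomial.aeval_X] at h1
      rw [h1]
      exact hA.1 i
    · have h1 := rs2_map (MvPolynomial.aeval A : MvPolynomial (Idx n d) ℤ →ₐ[ℤ] MvPolynomial J ℤ).toRingHom
        (MvPolynomial.X : Idx n d → MvPolynomial (Idx n d) ℤ) q.1 q.2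
      simp only [AlgHom.toRingHom_eq_coe, RingHom.coe_coe, MvPolynomial.aeval_X] at h1
      rw [h1]
      exact hA.2 q.1 q.2 (Finset.mem_filter.1 hq).2
  have hReval : ∀ u : J → ℤ, MvPolynomial.eval u R =
      MvPolynomial.eval (fun a => MvPolynomial.eval u (A a)) (Rr n d) := by
    intro u
    rw [hR, MvPolynomial.map_aeval]
    have e : (MvPolynomial.eval u).comp (algebraMap ℤ (MvPolynomial J ℤ)) = RingHom.id ℤ :=
      Subsingleton.elim _ _
    rw [e]
    rfl
  have hden : ∀ γ : ℂ, ∃ m : ℕ, γ ∈ Γ → 0 < m ∧ IsIntegral ℤ ((m : ℂ) * γ) := by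
    intro γ
    by_cases h : γ ∈ Γ
    · obtain ⟨m, hm⟩ := exists_den (hΓ γ h)
      exact ⟨m, fun _ => hm⟩
    · exact ⟨0, fun h' => absurd h' h⟩
  choose M hM using hden
  set T₀ := 16 * (d + 1) ^ 4 + ∑ γ ∈ Γ, M γ with hT₀
  obtain ⟨T', N₀, hN₀⟩ := mult_poly hκ hw hR0 T₀ ε hε
  have hpr : ∀ p : ℕ, ∃ G : ℕ, p.Prime → 16 * (d + 1) ^ 4 < p →
      ∀ (m : ℤ) (c : Coeffs n d ℤ), m ≠ 0 → (p : ℤ) ∣ m →
      ¬ (p : ℤ) ∣ MvPolynomial.eval c (Rr n d) →
      ∀ Γ : Finset ℂ, (∀ γ ∈ Γ, ∃ m : ℕ, ¬ p ∣ m ∧ IsIntegral ℤ ((m : ℂ) * γ)) →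
      ZilberPink (Γ : Set ℂ) G (curve m c) := by
    intro p
    by_cases h : p.Prime ∧ 16 * (d + 1) ^ 4 < p
    · obtain ⟨G, hG⟩ := good_of_prime n d hd p h.1 h.2
      exact ⟨G, fun _ _ => hG⟩
    · exact ⟨0, fun h1 h2 => absurd ⟨h1, h2⟩ h⟩
  choose Gp hGp using hpr
  refine ⟨∑ p ∈ Finset.range (T' + 1), Gp p, N₀, fun N hN => ?_⟩
  refine le_trans ?_ (hN₀ N hN)
  refine Nat.cast_le.2 (Set.ncard_le_ncard ?_ ((Finset.finite_toSet (S N)).subset fun t ht => ht.1))
  rintro t ⟨ht, hbad⟩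
  refine ⟨ht, fun ⟨h0, p, hp, hpT₀, hpT', hpm, hpR⟩ => hbad ?_⟩
  have hpD : 16 * (d + 1) ^ 4 < p := by omega
  have hΓp : ∀ γ ∈ Γ, ∃ m : ℕ, ¬ p ∣ m ∧ IsIntegral ℤ ((m : ℂ) * γ) := by
    intro γ hγ
    obtain ⟨h5, h6⟩ := hM γ hγ
    refine ⟨M γ, fun h7 => ?_, h6⟩
    have h8 := Nat.le_of_dvd h5 h7
    have h9 : M γ ≤ ∑ γ ∈ Γ, M γ := Finset.single_le_sum (fun _ _ => Nat.zero_le _) hγ
    omega
  have hle : Gp p ≤ ∑ p ∈ Finset.range (T' + 1), Gp p :=
    Finset.single_le_sum (fun _ _ => Nat.zero_le _) (Finset.mem_range.2 (by omega))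
  rw [hReval] at hpR
  exact zilberPink_mono hle (hGp p hp hpD _ _ h0 hpm hpR Γ hΓp)

/-- **Zilber-Pink for thin sequences in arbitrary families of rational curves in `Y(1)^n`.** -/
theorem result (n d : ℕ) (hd : 0 < d) (A : Coeffs n d (MvPolynomial J ℤ)) (hA : NoCommonZeros A)
    (Γ : Finset ℂ) (hΓ : ∀ γ ∈ Γ, IsAlgebraic ℚ γ) (F : Option J → Finset ℝ) (a : Option J → ℝ → ℝ)
    (c : Option J → ℝ) (h : ∀ k, Admissible (F k) (a k) (c k)) (hc : Function.Injective c)
    (ε : ℝ) (hε : 0 < ε) :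
    ∃ G N₀ : ℕ, ∀ N : ℕ, N₀ ≤ N →
      ({t : ℕ | t ∈ Finset.Ioc N (2 * N) ∧
        ¬ ZilberPink (Γ : Set ℂ) G (member A (floors F a t))}.ncard : ℝ) ≤ ε * N ∧
      ({t : ℕ | t ∈ (Finset.Ioc N (2 * N)).filter Nat.Prime ∧
        ¬ ZilberPink (Γ : Set ℂ) G (member A (floors F a t))}.ncard : ℝ) ≤
        ε * ((Finset.Ioc N (2 * N)).filter Nat.Prime).card := by
  obtain ⟨⟨κ₁, hκ₁, h₁⟩, ⟨κ₂, hκ₂, h₂⟩⟩ := Pool.Agent.N666.TM.fl_well h hc
  obtain ⟨G₁, N₁, g₁⟩ := along n d hd A hA Γ hΓ hκ₁ h₁ ε hε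
  obtain ⟨G₂, N₂, g₂⟩ := along n d hd A hA Γ hΓ hκ₂ h₂ ε hε
  refine ⟨max G₁ G₂, max N₁ N₂, fun N hN => ⟨?_, ?_⟩⟩
  · have k₁ := g₁ N ((le_max_left _ _).trans hN)
    rw [Nat.card_Ioc] at k₁
    have e : ((2 * N - N : ℕ) : ℝ) = N := by
      have : 2 * N - N = N := by omega
      rw [this]
    rw [e] at k₁
    refine le_trans ?_ k₁
    refine Nat.cast_le.2 (Set.ncard_le_ncard ?_
      ((Finset.finite_toSet (Finset.Ioc N (2 * N))).subset fun t ht => ht.1))
    rintro t ⟨ht, hbad⟩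
    exact ⟨ht, fun hg => hbad (zilberPink_mono (le_max_left _ _) hg)⟩
  · have k₂ := g₂ N ((le_max_right _ _).trans hN)
    refine le_trans ?_ k₂
    refine Nat.cast_le.2 (Set.ncard_le_ncard ?_
      ((Finset.finite_toSet ((Finset.Ioc N (2 * N)).filter Nat.Prime)).subset fun t ht => ht.1))
    rintro t ⟨ht, hbad⟩
    exact ⟨ht, fun hg => hbad (zilberPink_mono (le_max_right _ _) hg)⟩

end

end Pool.Agent.Results.MP_d83ecd_ag.ThinRationalFamilies
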